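import Mathlib
import Pool.Agent.P.MP_64e39e_gt.H.Three

namespace Pool.Agent.Results.MP_64e39e_gt.ThreeOrbits

/-- `p` is the common endpoint of three arcs that pairwise meet only in `p`. -/
def IsRamification {X : Type} [TopologicalSpace X] (p : X) : Prop :=
  ∃ γ : Fin 3 → unitInterval → X,
    (∀ i, Continuous (γ i) ∧ Function.Injective (γ i) ∧ γ i 0 = p) ∧
    ∀ i j, i ≠ j → Set.range (γ i) ∩ Set.range (γ j) = {p}

/-- `p` is an endpoint of every arc that contains it. -/
def IsEndpoint {X : Type} [TopologicalSpace X] (p : X) : Prop :=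
  ∀ γ : unitInterval → X, Continuous γ → Function.Injective γ → ∀ s, γ s = p → s = 0 ∨ s = 1

/-- In a fan whose homeomorphism group has at most four orbits, two points lie in the same orbit
exactly when they agree in being the top and in being an endpoint. -/
theorem result (X : Type) [MetricSpace X] [CompactSpace X]
    (arc : ∀ x y : X, x ≠ y → ∃ γ : unitInterval → X,
      Continuous γ ∧ Function.Injective γ ∧ γ 0 = x ∧ γ 1 = y)
    (hu : ∀ A B : Set X, IsCompact A → IsConnected A → IsCompact B → IsConnected B →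
      IsPreconnected (A ∩ B))
    (t : X) (ht : ∀ p : X, IsRamification p ↔ p = t)
    (a : Fin 4 → X) (ha : ∀ x : X, ∃ i, ∃ h : X ≃ₜ X, h (a i) = x) (x y : X) :
    (∃ h : X ≃ₜ X, h x = y) ↔ ((x = t ↔ y = t) ∧ (IsEndpoint x ↔ IsEndpoint y)) := by
  have hfix : ∀ h : X ≃ₜ X, h t = t := by
    intro h
    obtain ⟨γ, hγ, hγ'⟩ := (ht t).mpr rfl
    refine (ht _).mp ⟨fun i => h ∘ γ i, fun i => ⟨h.continuous.comp (hγ i).1,
      h.injective.comp (hγ i).2.1, by simp [(hγ i).2.2]⟩, fun i j hij => ?_⟩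
    rw [Set.range_comp, Set.range_comp, ← Set.image_inter h.injective, hγ' i j hij,
      Set.image_singleton]
  have hend : ∀ (h : X ≃ₜ X) (p : X), IsEndpoint (h p) → IsEndpoint p :=
    fun h p hp γ h1 h2 s hs => hp (h ∘ γ) (h.continuous.comp h1) (h.injective.comp h2) s
      (congrArg h hs)
  constructor
  · rintro ⟨h, rfl⟩
    refine ⟨⟨fun e => e ▸ hfix h, fun e => h.injective (e.trans (hfix h).symm)⟩,
      fun e => hend h.symm _ (by rwa [h.symm_apply_apply]), hend h x⟩
  · rintro ⟨h1, h2⟩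
    by_cases hx : x = t
    · exact ⟨Homeomorph.refl X, hx.trans (h1.mp hx).symm⟩
    have : PathConnectedSpace X := ⟨⟨t⟩, fun u v => by
      by_cases e : u = v
      · exact e ▸ Joined.refl u
      · obtain ⟨γ, g1, -, g2, g3⟩ := arc u v e
        exact ⟨⟨⟨γ, g1⟩, g2, g3⟩⟩⟩
    exact Pool.Agent.P.MP_64e39e_gt.three_orbits
      (fun A B h1 h2 h3 h4 => hu A B h1.isCompact h2 h3.isCompact h4) t
      (fun p hp => (ht p).mp hp) ((ht t).mpr rfl) a ha hx (mt h1.mpr hx) h2

end Pool.Agent.Results.MP_64e39e_gt.ThreeOrbits
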